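import Pool.Agent.H65.CRG.TL

/-!
# CRG, row QE: the value for the exponential function
-/

set_option autoImplicit false

open Set Filter Topology MeasureTheory

namespace Pool.Agent.H77.CRG

open Pool.Agent.H65.CRZ Pool.Agent.H65.CRG

theorem hexp (α β v : ℝ) :
    HasDerivAt (fun v => Real.exp (α * v + β)) (Real.exp (α * v + β) * α) v := by
  have h1 := ((hasDerivAt_id v).const_mul α).add_const β
  simpa using h1.exp

theorem int3 (c₁ c₂ c₃ α₁ α₂ α₃ β₁ β₂ β₃ a b : ℝ) (h1 : α₁ ≠ 0) (h2 : α₂ ≠ 0) (h3 : α₃ ≠ 0) :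
    ∫ v in a..b, (c₁ * Real.exp (α₁ * v + β₁) + c₂ * Real.exp (α₂ * v + β₂) +
      c₃ * Real.exp (α₃ * v + β₃)) =
    c₁ / α₁ * (Real.exp (α₁ * b + β₁) - Real.exp (α₁ * a + β₁)) +
      c₂ / α₂ * (Real.exp (α₂ * b + β₂) - Real.exp (α₂ * a + β₂)) +
      c₃ / α₃ * (Real.exp (α₃ * b + β₃) - Real.exp (α₃ * a + β₃)) := by
  have hd : ∀ v ∈ uIcc a b, HasDerivAt (fun v => c₁ / α₁ * Real.exp (α₁ * v + β₁) +
      c₂ / α₂ * Real.exp (α₂ * v + β₂) + c₃ / α₃ * Real.exp (α₃ * v + β₃))
      (c₁ * Real.exp (α₁ * v + β₁) + c₂ * Real.exp (α₂ * v + β₂) +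
      c₃ * Real.exp (α₃ * v + β₃)) v := by
    intro v _
    have h4 := (((hexp α₁ β₁ v).const_mul (c₁ / α₁)).fun_add
      ((hexp α₂ β₂ v).const_mul (c₂ / α₂))).fun_add ((hexp α₃ β₃ v).const_mul (c₃ / α₃))
    have e : c₁ / α₁ * (Real.exp (α₁ * v + β₁) * α₁) + c₂ / α₂ * (Real.exp (α₂ * v + β₂) * α₂) +
        c₃ / α₃ * (Real.exp (α₃ * v + β₃) * α₃) = c₁ * Real.exp (α₁ * v + β₁) +
        c₂ * Real.exp (α₂ * v + β₂) + c₃ * Real.exp (α₃ * v + β₃) := by
      field_simp
    rw [e] at h4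
    exact h4
  have hc : Continuous (fun v : ℝ => c₁ * Real.exp (α₁ * v + β₁) +
      c₂ * Real.exp (α₂ * v + β₂) + c₃ * Real.exp (α₃ * v + β₃)) := by fun_prop
  rw [intervalIntegral.integral_eq_sub_of_hasDerivAt hd (hc.intervalIntegrable a b)]
  ring

theorem pE_nonneg {R y : ℝ} (h : 0 ≤ y) : pE R y = 1 - Real.exp (-2 * R * y) := by
  unfold pE
  rw [if_pos h]

theorem pE_nonpos {R y : ℝ} (h : y ≤ 0) : pE R y = Real.exp (2 * R * y) - 1 := by
  rcases h.lt_or_eq with h1 | rfl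
  · unfold pE
    rw [if_neg (not_le.2 h1)]
  · rw [pE_nonneg le_rfl]
    simp

theorem pE_deriv (R y : ℝ) : HasDerivAt (pE R) (2 * R * Real.exp (-2 * R * |y|)) y := by
  have h1 : ∀ z, HasDerivAt (fun y => 1 - Real.exp (-2 * R * y)) (2 * R * Real.exp (-2 * R * z))
      z := by
    intro z
    have h := (((hasDerivAt_id z).const_mul (-2 * R)).exp).const_sub 1
    have e : -(Real.exp (-2 * R * id z) * (-2 * R * 1)) = 2 * R * Real.exp (-2 * R * z) := by
      simp only [id]
      ring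
    rw [e] at h
    exact h
  have h2 : ∀ z, HasDerivAt (fun y => Real.exp (2 * R * y) - 1) (2 * R * Real.exp (2 * R * z))
      z := by
    intro z
    have h := (((hasDerivAt_id z).const_mul (2 * R)).exp).sub_const 1
    have e : Real.exp (2 * R * id z) * (2 * R * 1) = 2 * R * Real.exp (2 * R * z) := by
      simp only [id]
      ring
    rw [e] at h
    exact h
  rcases lt_trichotomy y 0 with h | h | h
  · have h3 : pE R =ᶠ[𝓝 y] fun y => Real.exp (2 * R * y) - 1 := by
      filter_upwards [Iio_mem_nhds h] with z hz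
      exact pE_nonpos (le_of_lt hz)
    have h4 := (h2 y).congr_of_eventuallyEq h3
    rw [abs_of_neg h]
    have e : -2 * R * -y = 2 * R * y := by ring
    rw [e]
    exact h4
  · subst h
    have h3 : HasDerivWithinAt (pE R) (2 * R * Real.exp (-2 * R * |0|)) (Ici 0) 0 := by
      have h5 := (h1 0).hasDerivWithinAt (s := Ici 0)
      rw [abs_zero]
      exact h5.congr (fun z hz => pE_nonneg hz) (pE_nonneg le_rfl)
    have h4 : HasDerivWithinAt (pE R) (2 * R * Real.exp (-2 * R * |0|)) (Iic 0) 0 := by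
      have h5 := (h2 0).hasDerivWithinAt (s := Iic 0)
      have e : 2 * R * Real.exp (-2 * R * |0|) = 2 * R * Real.exp (2 * R * 0) := by simp
      rw [e]
      exact h5.congr (fun z hz => pE_nonpos hz) (pE_nonpos le_rfl)
    have h5 := h4.union h3
    rw [Iic_union_Ici] at h5
    exact h5.hasDerivAt univ_mem
  · have h3 : pE R =ᶠ[𝓝 y] fun y => 1 - Real.exp (-2 * R * y) := by
      filter_upwards [Ioi_mem_nhds h] with z hz
      exact pE_nonneg (le_of_lt hz)
    have h4 := (h1 y).congr_of_eventuallyEq h3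
    rw [abs_of_pos h]
    exact h4

theorem pf_QE : Pool.Agent.H65.CRG.T_QE := by
  intro R hR
  refine ⟨fun y => pE_deriv R y, ?_⟩
  have hb1 : Real.exp (-R) < 1 := by
    have h := Real.exp_lt_exp.2 (show -R < 0 by linarith)
    rwa [Real.exp_zero] at h
  have hC0 : 1 + pE R (1 / 2) = 2 - Real.exp (-R) := by
    rw [pE_nonneg (by norm_num)]
    have e : -2 * R * (1 / 2) = -R := by ring
    rw [e]
    ring
  have hC : (2 - Real.exp (-R)) ≠ 0 := by linarith
  rw [hC0]
  set b := Real.exp (-R) with hb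
  set E := Real.exp R with hE
  set C := 2 - b with hCd
  -- the integrals over the two halves
  set g : ℝ → ℝ := fun v => Real.exp (R * v) * ((1 + pE R (1 / 2 - v)) / C) with hg
  set g₁ : ℝ → ℝ := fun v => Real.exp (R * v) * ((R * (1 + pE R (1 / 2 - v)) -
    2 * R * Real.exp (-2 * R * |1 / 2 - v|)) / C) with hg₁
  have lo : ∀ v, v ≤ 1 / 2 → 1 + pE R (1 / 2 - v) = 2 - b * Real.exp (R * v) ^ 2 ∧
      Real.exp (-2 * R * |1 / 2 - v|) = b * Real.exp (R * v) ^ 2 := by
    intro v hv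
    have e : Real.exp (-2 * R * (1 / 2 - v)) = b * Real.exp (R * v) ^ 2 := by
      rw [hb, ← Real.exp_nat_mul, ← Real.exp_add]
      congr 1
      push_cast
      ring
    rw [pE_nonneg (by linarith), abs_of_nonneg (by linarith), e]
    exact ⟨by ring, rfl⟩
  have hi : ∀ v, 1 / 2 ≤ v → Real.exp (R * v) * (1 + pE R (1 / 2 - v)) =
      Real.exp (R - R * v) ∧
      Real.exp (R * v) * Real.exp (-2 * R * |1 / 2 - v|) = Real.exp (R - R * v) := by
    intro v hv
    have e1 : -2 * R * (-(1 / 2 - v)) = 2 * R * (1 / 2 - v) := by ring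
    have e2 : Real.exp (R * v) * Real.exp (2 * R * (1 / 2 - v)) = Real.exp (R - R * v) := by
      rw [← Real.exp_add]
      congr 1
      ring
    rw [pE_nonpos (by linarith), abs_of_nonpos (by linarith), e1, add_sub_cancel, e2]
    exact ⟨rfl, rfl⟩
  have hp2 : ∀ v, Real.exp (2 * R * v + 0) = Real.exp (R * v) ^ 2 := by
    intro v
    rw [← Real.exp_nat_mul]
    congr 1
    push_cast
    ring
  have hp4 : ∀ v, Real.exp (4 * R * v + -R) = b * Real.exp (R * v) ^ 4 := by
    intro v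
    rw [hb, ← Real.exp_nat_mul, ← Real.exp_add]
    congr 1
    push_cast
    ring
  have hp6 : ∀ v, Real.exp (6 * R * v + -(2 * R)) = b ^ 2 * Real.exp (R * v) ^ 6 := by
    intro v
    rw [hb, ← Real.exp_nat_mul, ← Real.exp_nat_mul, ← Real.exp_add]
    congr 1
    push_cast
    ring
  have hm2 : ∀ v, Real.exp (-(2 * R) * v + 2 * R) = Real.exp (R - R * v) ^ 2 := by
    intro v
    rw [← Real.exp_nat_mul]
    congr 1
    push_cast
    ring
  have hR2 : (2 * R) ≠ 0 := by positivity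
  have hR4 : (4 * R) ≠ 0 := by positivity
  have hR6 : (6 * R) ≠ 0 := by positivity
  have hRm : (-(2 * R)) ≠ 0 := neg_ne_zero.2 hR2
  have I1 : ∫ v in (0 : ℝ)..(1 / 2), g v ^ 2 =
      (7 / 6 * E - 2 + b - b ^ 2 / 6) / (R * C ^ 2) := by
    have h1 : ∫ v in (0 : ℝ)..(1 / 2), g v ^ 2 = ∫ v in (0 : ℝ)..(1 / 2),
        (4 / C ^ 2 * Real.exp (2 * R * v + 0) + -4 / C ^ 2 * Real.exp (4 * R * v + -R) +
          1 / C ^ 2 * Real.exp (6 * R * v + -(2 * R))) := by
      refine intervalIntegral.integral_congr fun v hv => ?_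
      rw [uIcc_of_le (by norm_num)] at hv
      simp only [hg]
      rw [(lo v hv.2).1, hp2, hp4, hp6]
      field_simp
      ring
    rw [h1, int3 _ _ _ _ _ _ _ _ _ _ _ hR2 hR4 hR6]
    have e1 : 2 * R * (1 / 2) + 0 = R := by ring
    have e2 : 4 * R * (1 / 2) + -R = R := by ring
    have e3 : 6 * R * (1 / 2) + -(2 * R) = R := by ring
    have e4 : Real.exp (6 * R * 0 + -(2 * R)) = b ^ 2 := by
      rw [hb, ← Real.exp_nat_mul]
      congr 1
      push_cast
      ring
    have e5 : Real.exp (4 * R * 0 + -R) = b := by rw [mul_zero, zero_add]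
    have e6 : Real.exp (2 * R * 0 + 0) = 1 := by rw [mul_zero, zero_add, Real.exp_zero]
    rw [e1, e2, e3, e4, e5, e6, ← hE]
    field_simp
    ring
  have I2 : ∫ v in (1 / 2 : ℝ)..1, g v ^ 2 = (E - 1) / (2 * (R * C ^ 2)) := by
    have h1 : ∫ v in (1 / 2 : ℝ)..1, g v ^ 2 = ∫ v in (1 / 2 : ℝ)..1,
        (1 / C ^ 2 * Real.exp (-(2 * R) * v + 2 * R) + 0 * Real.exp (4 * R * v + 0) +
          0 * Real.exp (6 * R * v + 0)) := by
      refine intervalIntegral.integral_congr fun v hv => ?_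
      rw [uIcc_of_le (by norm_num)] at hv
      simp only [hg]
      rw [hm2, ← (hi v hv.1).1]
      field_simp
      ring
    rw [h1, int3 _ _ _ _ _ _ _ _ _ _ _ hRm hR4 hR6]
    have e1 : Real.exp (-(2 * R) * 1 + 2 * R) = 1 := by
      have e0 : -(2 * R) * 1 + 2 * R = 0 := by ring
      rw [e0, Real.exp_zero]
    have e2 : Real.exp (-(2 * R) * (1 / 2) + 2 * R) = E := by
      rw [hE]
      congr 1
      ring
    rw [e1, e2]
    field_simp
    ring
  have I3 : ∫ v in (0 : ℝ)..(1 / 2), g₁ v ^ 2 =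
      R * (1 / 2 * E - 2 + 3 * b - 3 / 2 * b ^ 2) / C ^ 2 := by
    have h1 : ∫ v in (0 : ℝ)..(1 / 2), g₁ v ^ 2 = ∫ v in (0 : ℝ)..(1 / 2),
        (4 * R ^ 2 / C ^ 2 * Real.exp (2 * R * v + 0) +
          -12 * R ^ 2 / C ^ 2 * Real.exp (4 * R * v + -R) +
          9 * R ^ 2 / C ^ 2 * Real.exp (6 * R * v + -(2 * R))) := by
      refine intervalIntegral.integral_congr fun v hv => ?_
      rw [uIcc_of_le (by norm_num)] at hv
      simp only [hg₁]
      rw [(lo v hv.2).1, (lo v hv.2).2, hp2, hp4, hp6]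
      field_simp
      ring
    rw [h1, int3 _ _ _ _ _ _ _ _ _ _ _ hR2 hR4 hR6]
    have e1 : 2 * R * (1 / 2) + 0 = R := by ring
    have e2 : 4 * R * (1 / 2) + -R = R := by ring
    have e3 : 6 * R * (1 / 2) + -(2 * R) = R := by ring
    have e4 : Real.exp (6 * R * 0 + -(2 * R)) = b ^ 2 := by
      rw [hb, ← Real.exp_nat_mul]
      congr 1
      push_cast
      ring
    have e5 : Real.exp (4 * R * 0 + -R) = b := by rw [mul_zero, zero_add]
    have e6 : Real.exp (2 * R * 0 + 0) = 1 := by rw [mul_zero, zero_add, Real.exp_zero]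
    rw [e1, e2, e3, e4, e5, e6, ← hE]
    field_simp
    ring
  have I4 : ∫ v in (1 / 2 : ℝ)..1, g₁ v ^ 2 = R * (E - 1) / (2 * C ^ 2) := by
    have h1 : ∫ v in (1 / 2 : ℝ)..1, g₁ v ^ 2 = ∫ v in (1 / 2 : ℝ)..1,
        (R ^ 2 / C ^ 2 * Real.exp (-(2 * R) * v + 2 * R) + 0 * Real.exp (4 * R * v + 0) +
          0 * Real.exp (6 * R * v + 0)) := by
      refine intervalIntegral.integral_congr fun v hv => ?_
      rw [uIcc_of_le (by norm_num)] at hv
      simp only [hg₁]
      have e : Real.exp (R * v) * ((R * (1 + pE R (1 / 2 - v)) -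
          2 * R * Real.exp (-2 * R * |1 / 2 - v|)) / C) = -R * Real.exp (R - R * v) / C := by
        have h2 := (hi v hv.1).1
        have h3 := (hi v hv.1).2
        have h4 : Real.exp (R * v) * ((R * (1 + pE R (1 / 2 - v)) -
          2 * R * Real.exp (-2 * R * |1 / 2 - v|)) / C) =
          (R * (Real.exp (R * v) * (1 + pE R (1 / 2 - v))) -
          2 * R * (Real.exp (R * v) * Real.exp (-2 * R * |1 / 2 - v|))) / C := by ring
        rw [h4, h2, h3]
        ring
      rw [e, hm2]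
      field_simp
      ring
    rw [h1, int3 _ _ _ _ _ _ _ _ _ _ _ hRm hR4 hR6]
    have e1 : Real.exp (-(2 * R) * 1 + 2 * R) = 1 := by
      have e0 : -(2 * R) * 1 + 2 * R = 0 := by ring
      rw [e0, Real.exp_zero]
    have e2 : Real.exp (-(2 * R) * (1 / 2) + 2 * R) = E := by
      rw [hE]
      congr 1
      ring
    rw [e1, e2]
    field_simp
    ring
  have hpc : Continuous (pE R) :=
    continuous_iff_continuousAt.2 fun y => (pE_deriv R y).continuousAt
  have hgc : Continuous fun v => g v ^ 2 := by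
    simp only [hg]
    fun_prop
  have hg₁c : Continuous fun v => g₁ v ^ 2 := by
    simp only [hg₁]
    fun_prop
  have hg1 : g 1 = 1 / C := by
    simp only [hg]
    have h1 := (hi 1 (by norm_num)).1
    have h2 : Real.exp (R * 1) * ((1 + pE R (1 / 2 - 1)) / C) =
        Real.exp (R * 1) * (1 + pE R (1 / 2 - 1)) / C := by ring
    rw [h2, h1]
    simp
  unfold JF
  rw [← intervalIntegral.integral_add_adjacent_intervals
      (hgc.intervalIntegrable 0 (1 / 2)) (hgc.intervalIntegrable (1 / 2) 1),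
    ← intervalIntegral.integral_add_adjacent_intervals
      (hg₁c.intervalIntegrable 0 (1 / 2)) (hg₁c.intervalIntegrable (1 / 2) 1),
    I1, I2, I3, I4, hg1]
  have hb2 : Real.exp (-2 * R) = b ^ 2 := by
    rw [hb, ← Real.exp_nat_mul]
    congr 1
    push_cast
    ring
  rw [hb2]
  have hC2 : b = 2 - C := by rw [hCd]; ring
  rw [hC2]
  field_simp
  ring

end Pool.Agent.H77.CRG
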