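import Pool.Agent.H65.CRG.TL

/-!
# CRG, row QX: a positive proportion for every length of the mollifier
-/

set_option autoImplicit false

open Set Filter Topology MeasureTheory

namespace Pool.Agent.H77.CRG

open Pool.Agent.H65.CRZ Pool.Agent.H65.CRG

theorem qx_exp : (506 / 1000 : ℝ) ≤ Real.exp (-(17 / 25)) := by
  have h1 : Real.exp (17 / 25) ≤ 1976 / 1000 := by
    refine (Real.exp_bound' (n := 7) (by norm_num) (by norm_num) (by norm_num)).trans ?_
    norm_num [Finset.sum_range_succ, Nat.factorial]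
  rw [Real.exp_neg, le_inv_comm₀ (by norm_num) (Real.exp_pos _)]
  refine h1.trans ?_
  norm_num

theorem qx_d {R : ℝ} (hR : 4 ≤ R) : Real.exp (-R) ≤ 1 / 54 := by
  have h1 : (54 : ℝ) ≤ Real.exp 4 := by
    have h2 : (2.7182818283 : ℝ) ^ 4 ≤ Real.exp 1 ^ 4 :=
      pow_le_pow_left₀ (by norm_num) Real.exp_one_gt_d9.le 4
    have h3 : Real.exp 1 ^ 4 = Real.exp 4 := by
      rw [← Real.exp_nat_mul]
      norm_num
    rw [h3] at h2
    refine le_trans ?_ h2
    norm_num
  have h4 : Real.exp 4 ≤ Real.exp R := Real.exp_le_exp.2 hR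
  rw [Real.exp_neg, one_div]
  exact inv_anti₀ (by norm_num) (h1.trans h4)

theorem qx_c {R : ℝ} (hR : 4 ≤ R) :
    (2 * Real.exp R - 5 / 6 - Real.exp (-2 * R) / 6) / (2 - Real.exp (-R)) ^ 2 <
      Real.exp (R - 17 / 25) := by
  have hd := qx_d hR
  have hd0 : 0 < Real.exp (-R) := Real.exp_pos _
  have hE0 : 0 < Real.exp R := Real.exp_pos _
  have hEd : Real.exp R * Real.exp (-R) = 1 := by rw [← Real.exp_add]; simp
  have hc := qx_exp
  have h1 : Real.exp (R - 17 / 25) = Real.exp R * Real.exp (-(17 / 25)) := by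
    rw [← Real.exp_add]; rfl
  have h2 : 0 < Real.exp (-2 * R) := Real.exp_pos _
  set d := Real.exp (-R)
  set E := Real.exp R
  set c := Real.exp (-(17 / 25))
  rw [h1, div_lt_iff₀ (by nlinarith)]
  have h3 : (2 : ℝ) - 5 / 6 * d < c * (2 - d) ^ 2 := by
    have h4 : (506 / 1000 : ℝ) * (2 - d) ^ 2 ≤ c * (2 - d) ^ 2 :=
      mul_le_mul_of_nonneg_right hc (sq_nonneg _)
    have h5 : (2 : ℝ) - 5 / 6 * d < 506 / 1000 * (2 - d) ^ 2 := by nlinarith
    linarith
  have h6 : E * (2 - 5 / 6 * d) < E * (c * (2 - d) ^ 2) := mul_lt_mul_of_pos_left h3 hE0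
  have h7 : E * (2 - 5 / 6 * d) = 2 * E - 5 / 6 := by
    have : E * (2 - 5 / 6 * d) = 2 * E - 5 / 6 * (E * d) := by ring
    rw [this, hEd]
    ring
  rw [h7] at h6
  have h8 : E * (c * (2 - d) ^ 2) = E * c * (2 - d) ^ 2 := by ring
  rw [h8] at h6
  linarith

theorem pf_QX (h1 : Pool.Agent.H65.CRG.T_QW) (h2 : Pool.Agent.H65.CRG.T_QE)
    (h3 : Pool.Agent.H65.CRG.T_Q1) : Pool.Agent.H65.CRG.T_QX := by
  intro x hx hx4
  have hR : 4 ≤ 1 / x := by
    rw [le_div_iff₀ hx]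
    linarith
  have hR0 : 0 < 1 / x := by linarith
  obtain ⟨hd, hJ⟩ := h2 (1 / x) hR0
  rw [one_div_one_div] at hJ
  have hc := qx_c hR
  have hcont : Continuous fun y : ℝ => 2 * (1 / x) * Real.exp (-2 * (1 / x) * |y|) := by
    fun_prop
  have hodd : ∀ y, pE (1 / x) (-y) = -pE (1 / x) y := by
    intro y
    unfold pE
    rcases lt_trichotomy y 0 with h | h | h
    · rw [if_pos (by linarith), if_neg (not_le.2 h)]
      have e : -2 * (1 / x) * -y = 2 * (1 / x) * y := by ring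
      rw [e]
      ring
    · subst h
      simp
    · rw [if_neg (by linarith), if_pos h.le]
      have e : 2 * (1 / x) * -y = -2 * (1 / x) * y := by ring
      rw [e]
      ring
  have hpos : 0 < 1 + pE (1 / x) (1 / 2) := by
    unfold pE
    rw [if_pos (by norm_num)]
    have h4 : Real.exp (-2 * (1 / x) * (1 / 2)) ≤ 1 := Real.exp_le_one_iff.2 (by nlinarith)
    linarith
  obtain ⟨N, m, hm, hN⟩ := h1 (pE (1 / x))
    (fun y => 2 * (1 / x) * Real.exp (-2 * (1 / x) * |y|)) (1 / x) x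
    ((Real.exp (1 / x - 17 / 25) - (2 * Real.exp (1 / x) - 5 / 6 - Real.exp (-2 * (1 / x)) / 6) /
      (2 - Real.exp (-(1 / x))) ^ 2) / 2) hR0 hx (by linarith) hd hcont hodd hpos
  refine ⟨N, m, hm, ?_⟩
  rw [hJ] at hN
  have h4 := (abs_le.1 hN).2
  have h5 : cQ N m (1 / x) x < Real.exp (1 / x - 17 / 25) := by linarith
  have h6 : 1 ≤ cQ N m (1 / x) x := h3 N m (1 / x) x hm hx
  have h7 : Real.log (cQ N m (1 / x) x) < 1 / x - 17 / 25 := by
    have h8 := Real.log_lt_log (by linarith) h5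
    rwa [Real.log_exp] at h8
  have h9 : Real.log (cQ N m (1 / x) x) / (1 / x) < (1 / x - 17 / 25) / (1 / x) :=
    div_lt_div_of_pos_right h7 hR0
  have h10 : (1 / x - 17 / 25) / (1 / x) = 1 - 17 / 25 * x := by
    field_simp
  rw [h10] at h9
  linarith

end Pool.Agent.H77.CRG
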